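import Mathlib
import Pool.Agent.H.MP_aa9284_co.A

set_option autoImplicit false

namespace Pool.Agent.Results.MP_aa9284_co.No

open Configuration
open scoped Classical

theorem result :
    (∀ (P L : Type) [Membership P L] [ProjectivePlane P L] [Fintype P] [Fintype L]
      (w : P → ℕ) (s : ℝ), (∀ x, (w x : ℝ) ≤ s) →
      Function.Injective (fun l : L => ∑ x ∈ Finset.univ.filter (fun x : P => x ∈ l), w x) →
      (ProjectivePlane.order P L : ℝ) ^ 3 ≤ 3 * s ^ 2) ∧
    ¬ ∃ c : ℝ, ∀ (P L : Type) [Membership P L] [ProjectivePlane P L] [Fintype P] [Fintype L],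
      ∃ w : P → ℕ, (∀ x, 0 < w x) ∧ (∀ x, (w x : ℝ) ≤ c * ProjectivePlane.order P L) ∧
        Function.Injective (fun l : L => ∑ x ∈ Finset.univ.filter (fun x : P => x ∈ l), w x) := by
  refine ⟨fun P L _ _ _ _ w s hs hi => Pool.Agent.H.MP_aa9284_co.main P L w s hs hi, ?_⟩
  rintro ⟨c, hc⟩
  obtain ⟨n, hn⟩ := exists_nat_gt (3 * c ^ 2)
  obtain ⟨P, L, i1, i2, i3, i4, h⟩ := Pool.Agent.H.MP_aa9284_co.big n
  obtain ⟨w, -, h2, h3⟩ := hc P L
  have h4 := Pool.Agent.H.MP_aa9284_co.main P L w _ h2 h3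
  have h5 : (n : ℝ) ≤ ProjectivePlane.order P L := by exact_mod_cast h
  have h6 : (1 : ℝ) < ProjectivePlane.order P L := by
    exact_mod_cast ProjectivePlane.one_lt_order P L
  generalize (ProjectivePlane.order P L : ℝ) = q at h4 h5 h6
  have h7 : q ^ 2 * q ≤ q ^ 2 * (3 * c ^ 2) := by nlinarith
  have h8 := le_of_mul_le_mul_left h7 (by positivity)
  linarith

end Pool.Agent.Results.MP_aa9284_co.No
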